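import Pool.Agent.MP_bd94e8_al.H83A.Kit

/-!
Connections pass from the algebra to the problem.
-/

set_option autoImplicit false
set_option linter.unusedSectionVars false

namespace Pool.Agent.MP_bd94e8_al.H83A

open Module Function TensorProduct H83 H83.H H89

namespace B2A

section ten
variable (A R F S V W : Type) [Ring A] [CommRing R] [Field F] [AddCommGroup S] [Module A S]
  [Module F S] [SMulCommClass A F S] [AddCommGroup V] [Module F V] [Module R V]
  [SMulCommClass F R V]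

/-- A model of the tensor product of `S` and `V` over `F`. -/
structure Ten [AddCommGroup W] [Module A W] [Module R W] [SMulCommClass A R W] where
  t : V →ₗ[R] (S →ₗ[A] W)
  ev : (V →ₗ[F] F) → (W →ₗ[A] S)
  bal : ∀ (c : F) v s, t (c • v) s = t v (c • s)
  ev_t : ∀ l v s, ev l (t v s) = l v • s
  ind : ∀ (p : W → Prop) (_z : p 0) (_a : ∀ a b, p a → p b → p (a + b)) (_t : ∀ v s, p (t v s)) w, p w

theorem exW : ∃ (W : Type) (_ : AddCommGroup W) (_ : Module A W) (_ : Module R W)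
    (_ : SMulCommClass A R W), Nonempty (Ten A R F S V W) := by
  have := SMulCommClass.symm A F S
  have := SMulCommClass.symm F R V
  let φ : R →+* Module.End F (S ⊗[F] V) :=
    (Module.End.lTensorAlgHom F V S).toRingHom.comp (Module.toModuleEnd F V)
  let _ : Module R (S ⊗[F] V) := Module.compHom _ φ
  have h1 : ∀ (r : R) (s : S) (v : V), r • (s ⊗ₜ[F] v) = s ⊗ₜ[F] (r • v) := fun _ _ _ => rfl
  have : SMulCommClass A R (S ⊗[F] V) := ⟨fun a r w => by
    induction w with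
    | zero => simp
    | tmul s v => rw [h1, smul_tmul', smul_tmul', h1]
    | add x y hx hy => rw [smul_add, smul_add, hx, hy, smul_add, smul_add]⟩
  refine ⟨S ⊗[F] V, inferInstance, inferInstance, inferInstance, this, ⟨⟨⟨⟨fun v =>
    ⟨⟨fun s => s ⊗ₜ[F] v, fun a b => add_tmul _ _ _⟩, fun a s => rfl⟩, fun a b => ?_⟩,
    fun r v => ?_⟩, fun l => ⟨((TensorProduct.rid F S).toLinearMap ∘ₗ l.lTensor S).toAddHom, fun a w => ?_⟩,
    fun c v s => ?_, fun l v s => ?_, fun p h0 h2 h3 w => ?_⟩⟩⟩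
  · exact LinearMap.ext fun s => tmul_add _ _ _
  · exact LinearMap.ext fun s => (h1 _ _ _).symm
  · change ((TensorProduct.rid F S).toLinearMap ∘ₗ l.lTensor S) (a • w) =
      a • ((TensorProduct.rid F S).toLinearMap ∘ₗ l.lTensor S) w
    induction w with
    | zero => simp
    | tmul s v =>
      rw [smul_tmul']
      simp [smul_comm a (l v) s]
    | add x y hx hy => rw [smul_add, map_add, map_add, hx, hy, smul_add]
  · exact (smul_tmul c s v).symm
  · change ((TensorProduct.rid F S).toLinearMap ∘ₗ l.lTensor S) (s ⊗ₜ[F] v) = _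
    simp
  · induction w with
    | zero => exact h0
    | tmul s v => exact h3 v s
    | add x y hx hy => exact h2 _ _ hx hy

variable {A R F S V W} [AddCommGroup W] [Module A W] [Module R W] [SMulCommClass A R W]
  (T : Ten A R F S V W)

/-- A functional composed with a scalar. -/
def lsc (l : V →ₗ[F] F) (c : R) : V →ₗ[F] F :=
  ⟨⟨fun v => l (c • v), fun a b => by rw [smul_add, map_add]⟩, fun a v => by
    change l (c • a • v) = a • l (c • v)
    rw [← smul_comm, map_smul]⟩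

theorem Ten.ev_smul (l : V →ₗ[F] F) (c : R) (w : W) : T.ev l (c • w) = T.ev (lsc l c) w := by
  induction w using T.ind with
  | _z => simp
  | _a a b ha hb => rw [smul_add, map_add, map_add, ha, hb]
  | _t v s =>
    rw [T.ev_t, ← LinearMap.smul_apply, ← map_smul, T.ev_t]
    rfl

theorem Ten.inj [Nontrivial S] : Injective T.t := by
  refine (injective_iff_map_eq_zero _).2 fun v hv => (forall_dual_apply_eq_zero_iff F v).1 fun l => ?_
  obtain ⟨s, hs⟩ := exists_ne (0 : S)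
  have := T.ev_t l v s
  rw [hv, LinearMap.zero_apply, map_zero] at this
  exact (smul_eq_zero.1 this.symm).resolve_right hs

theorem Ten.surj [IsSimpleModule A S] (scal : ∀ σ : S →ₗ[A] S, ∃ c : F, ∀ x, σ x = c • x) :
    Surjective T.t := by
  classical
  let b := Basis.ofVectorSpace F V
  have key : ∀ w, ∃ I : Finset (Basis.ofVectorSpaceIndex F V), ∀ J, I ⊆ J →
      w = ∑ i ∈ J, T.t (b i) (T.ev (b.coord i) w) := by
    intro w
    induction w using T.ind with
    | _z => exact ⟨∅, fun J _ => by simp⟩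
    | _a x y hx hy =>
      obtain ⟨I, hI⟩ := hx
      obtain ⟨I', hI'⟩ := hy
      refine ⟨I ∪ I', fun J hJ => ?_⟩
      simp only [map_add, Finset.sum_add_distrib]
      rw [← hI J (Finset.subset_union_left.trans hJ), ← hI' J (Finset.subset_union_right.trans hJ)]
    | _t v s =>
      refine ⟨(b.repr v).support, fun J hJ => ?_⟩
      simp only [T.ev_t, ← T.bal]
      rw [← LinearMap.sum_apply, ← map_sum]
      congr 2
      conv_lhs => rw [← b.linearCombination_repr v, Finsupp.linearCombination_apply,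
        Finsupp.sum_of_support_subset _ hJ _ (by simp)]
      rfl
  intro φ
  have := IsSimpleModule.nontrivial A S
  obtain ⟨s, hs⟩ := exists_ne (0 : S)
  obtain ⟨I, hI⟩ := key (φ s)
  choose c hc using fun i => scal (T.ev (b.coord i) ∘ₗ φ)
  refine ⟨∑ i ∈ I, c i • b i, LinearMap.ext fun x => ?_⟩
  obtain ⟨a, rfl⟩ := IsSimpleModule.toSpanSingleton_surjective A hs x
  rw [LinearMap.toSpanSingleton_apply, map_smul, map_smul, hI I le_rfl, map_sum,
    LinearMap.sum_apply]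
  congr 1
  exact Finset.sum_congr rfl fun i _ => by rw [T.bal, ← hc]; rfl

include T in
theorem Ten.fin [Module.Finite F S] [Module.Finite R V] : Module.Finite R W := by
  obtain ⟨n, x, hx⟩ := Module.Finite.exists_fin (R := F) (M := S)
  let Φ : (Fin n → V) →ₗ[R] W := ∑ i, (⟨⟨fun v => T.t v (x i), fun a b => by simp⟩,
    fun a b => by simp⟩ : V →ₗ[R] W) ∘ₗ LinearMap.proj i
  refine Module.Finite.of_surjective Φ fun w => ?_
  induction w using T.ind with
  | _z => exact ⟨0, map_zero _⟩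
  | _a a b ha hb =>
    obtain ⟨a, rfl⟩ := ha
    obtain ⟨b, rfl⟩ := hb
    exact ⟨a + b, map_add _ _ _⟩
  | _t v s =>
    obtain ⟨c, rfl⟩ := (Submodule.mem_span_range_iff_exists_fun F).1 (hx ▸ Submodule.mem_top :
      s ∈ Submodule.span F (Set.range x))
    exact ⟨fun i => c i • v, by simp [Φ, T.bal]⟩

end ten

section nz
variable {A : Type} [Ring A] {F : Type} [Field F] {S Z Ω P : Type} [AddCommGroup S] [Module A S]
  [Module F S] [SMulCommClass A F S] [AddCommGroup Z] [Module A Z] [AddCommGroup Ω] [Module A Ω]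
  [AddCommGroup P] [Module A P] {ι : S →ₗ[A] Z}

/-- `N0` as a subspace. -/
def Ns (hι : Red F ι) (κ : Ω →ₗ[A] P) : Submodule F (Ω →ₗ[A] S) where
  carrier := N0 ι κ
  zero_mem' := ⟨0, by simp⟩
  add_mem' := fun ⟨g, hg⟩ ⟨g', hg'⟩ => ⟨g + g', by
    rw [LinearMap.add_comp, LinearMap.comp_add, hg, hg']⟩
  smul_mem' := fun c η ⟨g, hg⟩ => by
    obtain ⟨τ, hτ⟩ := hι.ext c
    exact ⟨τ ∘ₗ g, LinearMap.ext fun x =>
      (congrArg τ (LinearMap.congr_fun hg x)).trans (hτ (η x))⟩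

theorem Ns_comp (hι : Red F ι) {κ : Ω →ₗ[A] P} {γ : P →ₗ[A] P} {γ' : Ω →ₗ[A] Ω}
    (h : γ ∘ₗ κ = κ ∘ₗ γ') {η : Ω →ₗ[A] S} (hη : η ∈ Ns hι κ) : η ∘ₗ γ' ∈ Ns hι κ := by
  obtain ⟨g, hg⟩ := hη
  exact ⟨g ∘ₗ γ, by rw [LinearMap.comp_assoc, h, ← LinearMap.comp_assoc, hg]; rfl⟩

variable {R V W : Type} [CommRing R] [AddCommGroup V] [Module F V] [Module R V]
  [SMulCommClass F R V] [AddCommGroup W] [Module A W] [Module R W] [SMulCommClass A R W]
  (T : Ten A R F S V W) {Pt : Type} [Fintype Pt] (hι : Red F ι) (κ : Ω →ₗ[A] P)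
  (n : Pt → (Ω →ₗ[A] S))

/-- The map `η` represents the family `u`. -/
def Rep (η : Ω →ₗ[A] W) (u : Pt → V) : Prop :=
  ∀ l : V →ₗ[F] F, T.ev l ∘ₗ η - ∑ p, l (u p) • n p ∈ Ns hι κ

/-- The preimage of `U`. -/
def Ut (U : AddSubgroup (Pt → V)) (hU : ∀ c : R, ∀ u ∈ U, c • u ∈ U) :
    Submodule R (Ω →ₗ[A] W) where
  carrier := {η | ∃ u ∈ U, Rep T hι κ n η u}
  zero_mem' := ⟨0, U.zero_mem, fun l => by simp⟩
  add_mem' := fun ⟨u, hu, h⟩ ⟨u', hu', h'⟩ => ⟨u + u', U.add_mem hu hu', fun l => by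
    convert add_mem (h l) (h' l) using 1
    simp only [LinearMap.comp_add, Pi.add_apply, map_add, add_smul, Finset.sum_add_distrib]
    abel⟩
  smul_mem' := fun c η ⟨u, hu, h⟩ => ⟨c • u, hU c u hu, fun l => by
    have e : T.ev l ∘ₗ (c • η) = T.ev (lsc l c) ∘ₗ η := LinearMap.ext fun x => T.ev_smul l c (η x)
    rw [e]
    exact h (lsc l c)⟩

variable {κ n}

theorem Rep.uniq (hn : Bas F ι κ n) {η : Ω →ₗ[A] W} {u u' : Pt → V} (h : Rep T hι κ n η u)
    (h' : Rep T hι κ n η u') : u = u' := by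
  funext p
  refine sub_eq_zero.1 ((forall_dual_apply_eq_zero_iff F _).1 fun l => ?_)
  refine congrFun (hn.indep (fun p => l (u p - u' p)) ?_) p
  change _ ∈ Ns hι κ
  convert sub_mem (h' l) (h l) using 1
  simp only [map_sub, sub_smul, Finset.sum_sub_distrib]
  abel

theorem rep_sum (u : Pt → V) : Rep T hι κ n (∑ p, T.t (u p) ∘ₗ n p) u := fun l => by
  have : T.ev l ∘ₗ ∑ p, T.t (u p) ∘ₗ n p = ∑ p, l (u p) • n p :=
    LinearMap.ext fun x => by simp [T.ev_t]
  rw [this, sub_self]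
  exact zero_mem _

variable {U : AddSubgroup (Pt → V)} (hU : ∀ c : R, ∀ u ∈ U, c • u ∈ U)

theorem Ut_zero {η : Ω →ₗ[A] W} (h : ∀ l, T.ev l ∘ₗ η ∈ Ns hι κ) : η ∈ Ut T hι κ n U hU :=
  ⟨0, U.zero_mem, fun l => by simpa using h l⟩

theorem Ut_comp (hn : Bas F ι κ n) (hB : ∀ b ∈ BSet F ι κ n, ∀ u ∈ U, act b u ∈ U)
    {γ : P →ₗ[A] P} {γ' : Ω →ₗ[A] Ω} (h : γ ∘ₗ κ = κ ∘ₗ γ') {η : Ω →ₗ[A] W}
    (hη : η ∈ Ut T hι κ n U hU) : η ∘ₗ γ' ∈ Ut T hι κ n U hU := by
  obtain ⟨u, hu, h1⟩ := hη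
  choose b hb using fun p => hn.span (n p ∘ₗ γ')
  refine ⟨act (Matrix.of fun q p => b p q) u, hB _ ⟨γ, γ', h, hb⟩ u hu, fun l => ?_⟩
  have h2 : ∑ p, l (u p) • (n p ∘ₗ γ' - ∑ q, b p q • n q) ∈ Ns hι κ :=
    Submodule.sum_mem _ fun p _ => Submodule.smul_mem _ _ (hb p)
  convert add_mem (Ns_comp hι h (h1 l)) h2 using 1
  have e1 : (∑ p, l (u p) • n p) ∘ₗ γ' = ∑ p, l (u p) • n p ∘ₗ γ' :=
    LinearMap.ext fun x => by simp
  have e2 : ∑ q, l (act (Matrix.of fun q p => b p q) u q) • n q =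
      ∑ p, l (u p) • ∑ q, b p q • n q := by
    simp only [H89.act, map_sum, map_smul, Finset.sum_smul, Finset.smul_sum, Matrix.of_apply,
      smul_smul, smul_eq_mul]
    rw [Finset.sum_comm]
    simp only [mul_comm]
  rw [LinearMap.sub_comp, e1, e2, LinearMap.comp_assoc]
  simp only [smul_sub, Finset.sum_sub_distrib]
  abel

end nz

section push
variable {C A : Type} [CommRing C] [IsArtinianRing C] [Ring A] [Algebra C A] [Module.Finite C A]
  {Ω P Y W : Type} [AddCommGroup Ω] [Module A Ω] [Module C Ω] [IsScalarTower C A Ω]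
  [Module.Finite A Ω] [AddCommGroup P] [Module A P] [Module C P] [IsScalarTower C A P]
  [Module.Finite A P] [Projective A P] [AddCommGroup Y] [Module A Y] [Module C Y]
  [IsScalarTower C A Y] [AddCommGroup W] [Module A W] [Module (K C) W]
  [SMulCommClass A (K C) W] [Module C W] [IsScalarTower C (K C) W] [IsScalarTower C A W]

variable (C) in
/-- A coefficient as a linear map. -/
def cfA (g : Gam) : H C Y →ₗ[A] Y := ⟨⟨fun y => y.cf g, fun _ _ => rfl⟩, fun _ _ => rfl⟩

variable (C) in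
/-- The induced map on series, linear over `A`. -/
noncomputable def mapA (π : P →ₗ[A] Y) : H C P →ₗ[A] H C Y :=
  toA (map (π.restrictScalars C)) fun a y => H.ext fun g => π.map_smul a (y.cf g)

/-- The pushout along generators of a submodule `Q` of maps. -/
theorem push (κ : Ω →ₗ[A] P) (π : P →ₗ[A] Y) (hκ : Injective κ) (hex : Exact κ π)
    [IsNoetherian (K C) W] [IsArtinian (K C) W] (Q : Submodule (K C) (Ω →ₗ[A] W))
    (hQ : ∀ (γ : P →ₗ[A] P) (γ' : Ω →ₗ[A] Ω), γ ∘ₗ κ = κ ∘ₗ γ' → ∀ η ∈ Q, η ∘ₗ γ' ∈ Q)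
    (hQ' : ∀ g : P →ₗ[A] W, g ∘ₗ κ ∈ Q) (hA : ConnA C A) (i : ℕ) :
    ∃ (M : Type) (_ : AddCommGroup M) (_ : Module A M) (_ : Module (K C) M) (j : W →ₗ[A] M)
      (D : M →ₗ[A] M), Injective j ∧ (∀ (c : K C) w, j (c • w) = c • j w) ∧
      (∀ (c : K C) x, D (c • x) = thK i c • x + c • D x) ∧
      (∀ η, η ∈ Q ↔ ∃ G : P →ₗ[A] M, G ∘ₗ κ = j ∘ₗ η) ∧
      ∀ (Z : Type) [AddCommGroup Z] [Module A Z] (z : Z), (∀ h : Z →ₗ[A] Y, h z = 0) →
        ∀ h : Z →ₗ[A] M, h z ∈ LinearMap.range j := by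
  classical
  have := finC C A Ω
  have := finC C A P
  obtain ⟨_, e, he⟩ := hom_fin (A := A) (B := Ω) (R := K C) (N := W)
  have := isNoetherian_of_injective e he
  obtain ⟨m, η, hη⟩ := Submodule.fg_iff_exists_fin_generating_family.1 (IsNoetherian.noetherian Q)
  choose E hE1 hE2 using fun j => exists_extA (C := C) (η j)
  let Ψ : (Fin m → H C Ω) →ₗ[K C] W × (Fin m → H C P) :=
    (∑ j, E j ∘ₗ LinearMap.proj j).prod
      (LinearMap.pi fun j => -map (κ.restrictScalars C) ∘ₗ LinearMap.proj j)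
  have hΨ : ∀ y, Ψ y = (∑ j, E j (y j), fun j => -mapA C κ (y j)) := fun y => by
    refine Prod.ext ?_ rfl
    exact LinearMap.sum_apply _ _ _
  have hΨA : ∀ (a : A) y, Ψ (a • y) = a • Ψ y := fun a y => by
    simp only [hΨ, Pi.smul_apply, hE1, map_smul, Prod.smul_mk, Finset.smul_sum]
    congr 1
    funext j
    simp
  have hR : ∀ (a : A), ∀ x ∈ LinearMap.range Ψ, a • x ∈ LinearMap.range Ψ := by
    rintro a _ ⟨y, rfl⟩
    exact ⟨a • y, hΨA a y⟩
  have hκ' : Injective (mapA C κ) := map_inj (u := κ.restrictScalars C) hκ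
  have hΨi : Injective (toA Ψ hΨA) := fun y y' h => funext fun j =>
    hκ' (neg_injective (congrFun (congrArg Prod.snd ((hΨ y).symm.trans (h.trans (hΨ y')))) j))
  let mk : (W × (Fin m → H C P)) →ₗ[A] Quo _ hR := toA (Quo.mk _ hR) (Quo.smul_mk _ hR)
  have mk0 : ∀ x, mk x = 0 ↔ ∃ y, Ψ y = x := fun x => Quo.mk_eq_zero _ hR
  have mkK : ∀ (c : K C) x, mk (c • x) = c • mk x := (Quo.mk _ hR).map_smul
  have hN := isNoetherian_of_surjective (Quo.mk _ hR) (LinearMap.range_eq_top.2 (Quo.surj _ hR))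
  have hAr := isArtinian_of_surjective _ (Quo.mk _ hR) (Quo.surj _ hR)
  obtain ⟨D, hD⟩ := hA (Quo _ hR) length_ne_top i
  have jK : ∀ (c : K C) w, (mk ∘ₗ LinearMap.inl A _ _) (c • w) =
      c • (mk ∘ₗ LinearMap.inl A _ _) w := fun c w => by
    simp only [LinearMap.comp_apply, ← mkK, LinearMap.inl_apply, Prod.smul_mk, smul_zero]
  refine ⟨Quo _ hR, inferInstance, inferInstance, inferInstance, mk ∘ₗ LinearMap.inl A _ _, D,
    ?_, jK, hD, fun θ => ⟨fun hθ => ?_, fun ⟨G, hG⟩ => ?_⟩, fun Z _ _ z hz h => ?_⟩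
  · refine (injective_iff_map_eq_zero _).2 fun w hw => ?_
    obtain ⟨y, hy⟩ := (mk0 _).1 hw
    rw [hΨ] at hy
    have h0 : y = 0 := funext fun j =>
      hκ' ((neg_eq_zero.1 (congrFun (congrArg Prod.snd hy) j)).trans (map_zero _).symm)
    simpa [h0] using (congrArg Prod.fst hy).symm
  · rw [← hη] at hθ
    induction hθ using Submodule.span_induction with
    | mem x hx =>
      obtain ⟨j, rfl⟩ := hx
      refine ⟨mk ∘ₗ LinearMap.inr A _ _ ∘ₗ LinearMap.single A _ j ∘ₗ sgl C P A,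
        LinearMap.ext fun x => ?_⟩
      refine (sub_eq_zero.1 ((map_sub mk _ _).symm.trans ((mk0 _).2
        ⟨Pi.single j (sgl C Ω A x), ?_⟩))).symm
      rw [hΨ]
      refine Prod.ext ?_ (funext fun j' => ?_)
      · rw [Finset.sum_eq_single j (fun j' _ h => by simp [Pi.single_eq_of_ne h]) (by simp)]
        simp [hE2]
      · by_cases h : j' = j
        · subst h
          have h3 : mapA C κ (sgl C Ω A x) = sgl C P A (κ x) :=
            map_sgl (A := A) (A' := A) (κ.restrictScalars C) x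
          simpa using h3
        · simp [Pi.single_eq_of_ne h]
    | zero => exact ⟨0, by simp⟩
    | add x y _ _ hx hy =>
      obtain ⟨G, hG⟩ := hx
      obtain ⟨G', hG'⟩ := hy
      exact ⟨G + G', by rw [LinearMap.add_comp, hG, hG', LinearMap.comp_add]⟩
    | smul c x _ hx =>
      obtain ⟨G, hG⟩ := hx
      exact ⟨c • G, LinearMap.ext fun y =>
        (congrArg (c • ·) (LinearMap.congr_fun hG y)).trans (jK c (x y)).symm⟩
  · obtain ⟨G', rfl⟩ := projective_lifting_property mk G (Quo.surj _ hR)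
    obtain ⟨y, hy⟩ := exists_fac hΨi (G' ∘ₗ κ - LinearMap.inl A _ _ ∘ₗ θ) fun x =>
      (mk0 _).1 ((map_sub mk _ _).trans (sub_eq_zero.2 (LinearMap.congr_fun hG x)))
    have hy' : ∀ x, (∑ j, E j (y x j), fun j => -mapA C κ (y x j)) = G' (κ x) - (θ x, 0) :=
      fun x => (hΨ _).symm.trans (LinearMap.congr_fun hy x)
    have e1 : θ = (LinearMap.fst A _ _ ∘ₗ G') ∘ₗ κ -
        ∑ j, toA (E j) (hE1 j) ∘ₗ LinearMap.proj j ∘ₗ y := LinearMap.ext fun x => by
      have := congrArg Prod.fst (hy' x)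
      simp only [Prod.fst_sub] at this
      simp only [LinearMap.sub_apply, LinearMap.sum_apply, LinearMap.comp_apply]
      exact eq_sub_of_add_eq' (eq_sub_iff_add_eq.1 this)
    rw [e1]
    refine sub_mem (hQ' _) (Submodule.sum_mem _ fun j _ => ?_)
    obtain ⟨ξ, hξ⟩ := (toHom_bij (C := C)).2 (LinearMap.proj j ∘ₗ y)
    let Γ : Submodule C (Ω →ₗ[A] Ω) :=
      (LinearMap.range (pre C P κ)).comap (post C Ω κ)
    let Φ : (Ω →ₗ[A] H C Ω) →ₗ[K C] (Ω →ₗ[A] W) :=
      ⟨⟨fun u => toA (E j) (hE1 j) ∘ₗ u, fun _ _ => LinearMap.comp_add _ _ _⟩,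
        fun c u => LinearMap.ext fun x => (E j).map_smul c (u x)⟩
    rw [← hξ]
    refine mem_of_cf (A := C) Γ (Q.comap (Φ ∘ₗ toHom C)) (fun γ' ⟨γ, hγ⟩ => ?_) ξ fun g => ?_
    · have e2 : (Φ ∘ₗ toHom C) (sgl C _ C γ') = η j ∘ₗ γ' := by
        rw [LinearMap.comp_apply, toHom_sgl]
        exact LinearMap.ext fun x => hE2 j (γ' x)
      rw [Submodule.mem_comap, e2]
      exact hQ γ γ' hγ _ (hη ▸ Submodule.subset_span ⟨j, rfl⟩)
    · refine ⟨-(cfA C g ∘ₗ LinearMap.proj j ∘ₗ LinearMap.snd A _ _ ∘ₗ G'),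
        LinearMap.ext fun x => ?_⟩
      have h1 := congrFun (congrArg Prod.snd (hy' x)) j
      have h2 : y x j = toHom C ξ x := (LinearMap.congr_fun hξ x).symm
      simp only [Prod.snd_sub, sub_zero, h2] at h1
      have h3 := congrArg (cfA (A := A) C g) h1
      rw [map_neg] at h3
      exact (neg_eq_iff_eq_neg.2 (neg_eq_iff_eq_neg.1 h3 ▸ (neg_neg _).symm)).trans rfl
  · obtain ⟨ϖ, hϖ⟩ := exists_desc (ρ := mk) (Quo.surj _ hR)
      (LinearMap.pi fun j => mapA C π ∘ₗ LinearMap.proj j ∘ₗ LinearMap.snd A _ _) fun x hx => by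
        obtain ⟨y, rfl⟩ := (mk0 _).1 hx
        rw [LinearMap.mem_ker, hΨ]
        funext j
        refine H.ext fun g => ?_
        change π ((-mapA C κ (y j)).cf g) = 0
        rw [← map_neg]
        exact hex.apply_apply_eq_zero _
    obtain ⟨x, hx⟩ := Quo.surj _ hR (h z)
    have h1 : ∀ j, ∃ y, mapA C κ y = x.2 j := fun j => by
      refine (map_exact (u := κ.restrictScalars C) (v := π.restrictScalars C) hex _).1
        (H.ext fun g => ?_)
      have h2 := hz (cfA C g ∘ₗ LinearMap.proj j ∘ₗ ϖ ∘ₗ h)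
      simp only [LinearMap.comp_apply, ← hx] at h2
      have h3 := LinearMap.congr_fun hϖ x
      rw [LinearMap.comp_apply] at h3
      exact (congrArg (fun w => cfA (A := A) C g (w j)) h3).symm.trans h2
    choose y hy using h1
    refine ⟨x.1 + ∑ j, E j (y j), ?_⟩
    rw [← hx]
    refine sub_eq_zero.1 ((map_sub mk _ _).symm.trans ((mk0 _).2 ⟨y, ?_⟩))
    rw [hΨ]
    refine Prod.ext (by simp) (funext fun j => by simp [hy])

end push

end B2A

open B2A in
theorem b2 : SB2 := by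
  intro C A F S Z _ _ _ _ _ _ _ _ _ _ _ _ _ _ ι hι hc Ω P Y _ _ _ _ _ _ _ _ _ κ π Pt _ n hP hn hA
    V _ _ _ _ _ hV U hB hU i
  obtain ⟨W, _, _, _, _, ⟨T⟩⟩ := exW A (K C) F S V
  have := hι.simple
  have := IsSimpleModule.nontrivial A S
  let _ := modC C A Ω
  let _ := modC C A P
  let _ := modC C A Y
  let _ := modC C A W
  have := towC C A Ω
  have := towC C A P
  have := towC C A Y
  have := towC C A W
  have : IsScalarTower C (K C) W := IsScalarTower.of_algebraMap_smul fun c w => by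
    induction w using T.ind with
    | _z => simp
    | _a a b ha hb => rw [smul_add, smul_add, ha, hb]
    | _t v s =>
      rw [← LinearMap.smul_apply, ← map_smul, hV, T.bal, ← hc, map_smul]
      rfl
  have : Module.Finite F S := by
    let _ := modC C A S
    have := towC C A S
    obtain ⟨s, hs⟩ := exists_ne (0 : S)
    have := Module.Finite.of_surjective _ (IsSimpleModule.toSpanSingleton_surjective A hs)
    have := finC C A S
    have : IsScalarTower C F S := IsScalarTower.of_algebraMap_smul fun c x => (hc c x).symm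
    exact Module.Finite.of_restrictScalars_finite C F S
  have := T.fin
  have : IsArtinianRing (K C) := inferInstanceAs (IsArtinian (K C) (H C C))
  have : IsNoetherianRing (K C) := inferInstanceAs (IsNoetherian (K C) (H C C))
  obtain ⟨M, _, _, _, j, D, hj, hjK, hD, hQ, hZ⟩ := push κ π hP.inj hP.exact (Ut T hι κ n U hU)
    (fun γ γ' h η => Ut_comp T hι hU hn hB h)
    (fun g => Ut_zero T hι hU fun l => ⟨ι ∘ₗ T.ev l ∘ₗ g, rfl⟩) hA i
  have h1 : ∀ v, ∃ h : Z →ₗ[A] M, h ∘ₗ ι = j ∘ₗ T.t v := fun v => by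
    rcases hP.alt with h | ⟨s, g, s', τ, e1, e2, e3⟩
    · exact exists_desc h _ (by rw [LinearMap.ker_eq_bot.2 hι.inj]; exact bot_le)
    · obtain ⟨G, hG⟩ := (hQ (T.t v ∘ₗ τ)).1 (Ut_zero T hι hU fun l => by
        have e : T.ev l ∘ₗ T.t v ∘ₗ τ = l v • τ := LinearMap.ext fun x => T.ev_t l v (τ x)
        rw [e]
        exact Submodule.smul_mem _ _ ⟨g, e2.symm⟩)
      refine ⟨G ∘ₗ s, ?_⟩
      rw [LinearMap.comp_assoc, ← e1, ← LinearMap.comp_assoc, hG, LinearMap.comp_assoc,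
        LinearMap.comp_assoc, e3, LinearMap.comp_id]
  have h2 : ∀ v s, (D ∘ₗ j ∘ₗ T.t v) s ∈ LinearMap.range j := fun v s => by
    obtain ⟨h, hh⟩ := h1 v
    rw [← hh]
    exact hZ Z (ι s) (fun h => LinearMap.congr_fun (hP.kill h) s) (D ∘ₗ h)
  choose φ hφ using fun v => exists_fac hj _ (h2 v)
  choose D' hD' using fun v => T.surj hι.scal (φ v)
  have key : ∀ v s, j (T.t (D' v) s) = D (j (T.t v s)) := fun v s => by
    rw [hD']
    exact LinearMap.congr_fun (hφ v) s
  have ext : ∀ v v', (∀ s, j (T.t v s) = j (T.t v' s)) → v = v' := fun v v' h =>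
    T.inj (LinearMap.ext fun s => hj (h s))
  refine ⟨⟨⟨D', fun a b => ext _ _ fun s => ?_⟩, fun c v => ext _ _ fun s => ?_⟩,
    fun c v => ext _ _ fun s => ?_, fun u hu => ?_⟩
  · simp only [map_add, LinearMap.add_apply, key]
  · simp only [RingHom.id_apply, T.bal, key]
  · change j (T.t (D' (c • v)) s) = j (T.t (thK i c • v + c • D' v) s)
    simp only [map_add, map_smul, LinearMap.add_apply, LinearMap.smul_apply, key, hjK, hD]
  · obtain ⟨G, hG⟩ := (hQ _).1 ⟨u, hu, rep_sum T hι u⟩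
    obtain ⟨u', hu', h'⟩ := (hQ (∑ p, T.t (D' (u p)) ∘ₗ n p)).2
      ⟨D ∘ₗ G, LinearMap.ext fun x => by
        rw [LinearMap.comp_assoc, hG]
        simp [key]⟩
    rw [h'.uniq T hι hn (rep_sum T hι _)] at hu'
    exact hu'

end Pool.Agent.MP_bd94e8_al.H83A
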